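import Pool.Agent.L7h85.RL.Stm

/-!
# Project RL: the numerical end of the infinite case
-/

set_option autoImplicit false

namespace Pool.Agent.L7h97.RL

open Finset Filter Pool.Agent.L7h85.RL

/-- the ratio `a (M + K) / a M` for a log-convex sequence between `b^(2(n+1)) / (n+2)^e` and
`b^(2(n+1))` -/
theorem ratio {a : ℕ → ℝ} {b : ℝ} {e : ℕ} (hb : 0 < b) (ha : ∀ n, 0 < a n)
    (hc : ∀ n, a (n + 1) ^ 2 ≤ a n * a (n + 2)) (hu : a 0 ≤ b ^ 2)
    (hl : ∀ n, b ^ (2 * (n + 1)) ≤ a n * (n + 2) ^ e) {M : ℕ} (hM : 1 ≤ M) (K : ℕ) :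
    b ^ (2 * K) * a M * (1 - K * e * Real.log (M + 2) / M) ≤ a (M + K) := by
  set g : ℕ → ℝ := fun n => a (n + 1) / a n with hg
  have hg0 : ∀ n, 0 < g n := fun n => div_pos (ha _) (ha _)
  have hmono : Monotone g := by
    apply monotone_nat_of_le_succ
    intro n
    simp only [hg]
    rw [div_le_div_iff₀ (ha n) (ha (n + 1))]
    have := hc n
    nlinarith
  have hstep : ∀ n, a (n + 1) = a n * g n := fun n => by
    simp only [hg]
    rw [mul_div_cancel₀ _ (ha n).ne']
  have hlow : ∀ k, a M * g M ^ k ≤ a (M + k) := by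
    intro k
    induction k with
    | zero => simp
    | succ k ih =>
      rw [← add_assoc, hstep, pow_succ, ← mul_assoc]
      exact mul_le_mul ih (hmono (by omega)) (hg0 _).le (ha _).le
  have hupp : ∀ j, j ≤ M → a j ≤ a 0 * g M ^ j := by
    intro j
    induction j with
    | zero => intro _; simp
    | succ j ih =>
      intro hj
      rw [hstep, pow_succ, ← mul_assoc]
      exact mul_le_mul (ih (by omega)) (hmono (by omega)) (hg0 _).le
        (mul_nonneg (ha 0).le (pow_nonneg (hg0 _).le _))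
  have hM0 : (0 : ℝ) < M := by exact_mod_cast hM
  set q : ℝ := g M / b ^ 2 with hq
  have hq0 : 0 < q := div_pos (hg0 _) (by positivity)
  have hgq : g M = b ^ 2 * q := by rw [hq, mul_div_cancel₀ _ (by positivity)]
  have h1 : 1 ≤ q ^ M * ((M : ℝ) + 2) ^ e := by
    have h2 := hupp M le_rfl
    have h3 := hl M
    have h4 : b ^ (2 * (M + 1)) ≤ (b ^ 2 * (b ^ 2 * q) ^ M) * ((M : ℝ) + 2) ^ e := by
      refine h3.trans ?_
      apply mul_le_mul_of_nonneg_right _ (by positivity)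
      refine h2.trans ?_
      rw [hgq]
      apply mul_le_mul_of_nonneg_right hu
      positivity
    have h5 : (b ^ 2 * (b ^ 2 * q) ^ M) * ((M : ℝ) + 2) ^ e =
        b ^ (2 * (M + 1)) * (q ^ M * ((M : ℝ) + 2) ^ e) := by
      rw [mul_pow, ← pow_mul]
      ring
    rw [h5] at h4
    exact le_of_mul_le_mul_left (by rw [mul_one]; exact h4) (by positivity : 0 < b ^ (2 * (M + 1)))
  have h2 : 0 ≤ M * Real.log q + e * Real.log ((M : ℝ) + 2) := by
    have h3 := Real.log_nonneg h1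
    rw [Real.log_mul (by positivity) (by positivity), Real.log_pow, Real.log_pow] at h3
    exact h3
  have h3 : -(e * Real.log ((M : ℝ) + 2) / M) ≤ Real.log q := by
    rw [← neg_div, div_le_iff₀ hM0]
    linarith
  have h4 : 1 - K * e * Real.log ((M : ℝ) + 2) / M ≤ q ^ K := by
    have h5 : Real.exp (-(K * e * Real.log ((M : ℝ) + 2) / M)) ≤ q ^ K := by
      have h6 : q ^ K = Real.exp (K * Real.log q) := by
        rw [mul_comm, Real.exp_mul, Real.exp_log hq0, Real.rpow_natCast]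
      rw [h6]
      apply Real.exp_le_exp.2
      have h7 := mul_le_mul_of_nonneg_left h3 (Nat.cast_nonneg K : (0 : ℝ) ≤ K)
      calc -(K * e * Real.log ((M : ℝ) + 2) / M) = K * -(e * Real.log ((M : ℝ) + 2) / M) := by ring
        _ ≤ _ := h7
    have h6 := Real.add_one_le_exp (-(K * e * Real.log ((M : ℝ) + 2) / M))
    linarith
  calc b ^ (2 * K) * a M * (1 - K * e * Real.log ((M : ℝ) + 2) / M) ≤
        b ^ (2 * K) * a M * q ^ K := mul_le_mul_of_nonneg_left h4
          (mul_nonneg (by positivity) (ha M).le)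
    _ = a M * g M ^ K := by
        rw [hgq, mul_pow, ← pow_mul]
        ring
    _ ≤ _ := hlow K

theorem small_c (f : ℕ → ℝ) (M₀ : ℕ) : ∃ c : ℝ, 0 < c ∧ ∀ M, M < M₀ → c * f M ≤ 1 := by
  set S := ∑ M ∈ range M₀, |f M| with hS
  have hS0 : 0 ≤ S := sum_nonneg fun _ _ => abs_nonneg _
  refine ⟨1 / (1 + S), by positivity, fun M hM => ?_⟩
  rw [one_div, inv_mul_le_iff₀ (by positivity), mul_one]
  have h1 : |f M| ≤ S := single_le_sum (f := fun M => |f M|) (fun _ _ => abs_nonneg _)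
    (mem_range.2 hM)
  have h2 := le_abs_self (f M)
  linarith

theorem ev_big (A : ℝ) : ∃ M₀ : ℕ, ∀ M : ℕ, M₀ ≤ M → A * Real.log (M + 2) ≤ M := by
  have h1 : Tendsto (fun x : ℝ => Real.log x / x) atTop (nhds 0) := by
    have := Real.tendsto_pow_log_div_mul_add_atTop 1 0 1 one_ne_zero
    simpa using this
  have h2 : Tendsto (fun M : ℕ => Real.log ((M : ℝ) + 2) / ((M : ℝ) + 2)) atTop (nhds 0) :=
    h1.comp (tendsto_atTop_add_const_right _ _ tendsto_natCast_atTop_atTop)
  have hA : 0 < 1 / (2 * |A| + 1) := by positivity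
  obtain ⟨M₀, hM₀⟩ := eventually_atTop.1 (h2.eventually (gt_mem_nhds hA))
  refine ⟨max M₀ 2, fun M hM => ?_⟩
  have h3 := hM₀ M ((le_max_left _ _).trans hM)
  have h4 : (2 : ℝ) ≤ M := by exact_mod_cast (le_max_right _ _).trans hM
  rw [div_lt_div_iff₀ (by positivity) (by positivity), one_mul] at h3
  have h5 : 0 ≤ Real.log ((M : ℝ) + 2) := Real.log_nonneg (by linarith)
  have h6 : A * Real.log ((M : ℝ) + 2) ≤ |A| * Real.log ((M : ℝ) + 2) :=
    mul_le_mul_of_nonneg_right (le_abs_self A) h5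
  nlinarith

theorem s_NUM : S_NUM := by
  intro α z E b o κ e C hb ho hC hz hα hlc hup hlo hE hβ
  have hbR : (0 : ℝ) < b := by exact_mod_cast hb
  have hoR : (1 : ℝ) ≤ o := by exact_mod_cast ho
  have haR : ∀ n, (0 : ℝ) < α n := fun n => by exact_mod_cast hα n
  set A : ℝ := (b : ℝ) ^ (4 * (κ + 1)) * (2 * κ + 2) * (e + 1) with hA
  have hA0 : 0 < A := by positivity
  obtain ⟨M₀, hM₀⟩ := ev_big (2 * A)
  obtain ⟨c₂, hc₂, hsmall⟩ := small_c
    (fun M => √((M + 1) / Real.log (M + 2)) * α M) (max M₀ 1)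
  set c₁ : ℝ := 1 / (2 * C * √(8 * A)) with hc₁
  have hc₁0 : 0 < c₁ := by positivity
  refine ⟨min c₁ c₂, lt_min hc₁0 hc₂, fun M => ?_⟩
  have hlog : 0 < Real.log ((M : ℝ) + 2) := Real.log_pos (by
    have : (0 : ℝ) ≤ M := Nat.cast_nonneg M
    linarith)
  have hf0 : 0 ≤ √(((M : ℝ) + 1) / Real.log (M + 2)) * α M :=
    mul_nonneg (Real.sqrt_nonneg _) (haR M).le
  by_cases hM : M < max M₀ 1
  · have h1 := hsmall M hM
    have h2 : (1 : ℝ) ≤ z M := by exact_mod_cast hz M
    calc min c₁ c₂ * √(((M : ℝ) + 1) / Real.log (M + 2)) * α M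
        = min c₁ c₂ * (√(((M : ℝ) + 1) / Real.log (M + 2)) * α M) := by ring
      _ ≤ c₂ * (√(((M : ℝ) + 1) / Real.log (M + 2)) * α M) :=
          mul_le_mul_of_nonneg_right (min_le_right _ _) hf0
      _ ≤ 1 := h1
      _ ≤ z M := h2
  · have hM1 : 1 ≤ M := by
      have := le_max_right M₀ 1
      omega
    have hM2 : M₀ ≤ M := by
      have := le_max_left M₀ 1
      omega
    have hMR : (1 : ℝ) ≤ M := by exact_mod_cast hM1
    have hbig := hM₀ M hM2
    set l := Real.log ((M : ℝ) + 2) with hl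
    set x : ℝ := M / (2 * A * l) with hx
    have hx1 : 1 ≤ x := by
      rw [hx, le_div_iff₀ (by positivity), one_mul]
      exact hbig
    obtain ⟨n, hn⟩ : ∃ n : ℕ, ⌊x⌋₊ = n + 1 := by
      have h1 : 1 ≤ ⌊x⌋₊ := Nat.le_floor (by simpa using hx1)
      exact ⟨⌊x⌋₊ - 1, by omega⟩
    have hnx : ((n : ℝ) + 1) ≤ x := by
      have := Nat.floor_le (show 0 ≤ x by linarith)
      rw [hn] at this
      exact_mod_cast this
    have hnx2 : x / 2 ≤ (n : ℝ) + 1 := by
      have h1 := Nat.lt_floor_add_one x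
      rw [hn] at h1
      push_cast at h1
      have h2 : (0 : ℝ) ≤ n := Nat.cast_nonneg n
      linarith
    set η : ℝ := A * l / M with hη
    have hη0 : 0 ≤ η := by positivity
    have hηn : ((n : ℝ) + 1) * η ≤ 1 / 2 := by
      calc ((n : ℝ) + 1) * η ≤ x * η := mul_le_mul_of_nonneg_right hnx hη0
        _ = 1 / 2 := by
          rw [hx, hη]
          field_simp
    have hη1 : η ≤ 1 / 2 := by
      have h2 : (0 : ℝ) ≤ n := Nat.cast_nonneg n
      nlinarith
    -- the lower bound for β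
    have hr := ratio (a := fun n => (α n : ℝ)) (b := (b : ℝ)) (e := e) hbR haR
      (fun n => by exact_mod_cast hlc n) (by
        have := hup 0
        norm_num at this
        exact_mod_cast this) (fun n => by exact_mod_cast hlo n) hM1 (2 * κ + 2)
    set β : ℝ := (o : ℝ) ^ 2 * α M - ((b : ℝ) ^ (4 * (κ + 1)) * α M - α (M + (2 * κ + 2))) with hβd
    have hβlow : (o : ℝ) ^ 2 * α M * (1 - η) ≤ β := by
      have e1 : (2 * (2 * κ + 2)) = 4 * (κ + 1) := by ring
      rw [e1] at hr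
      push_cast at hr
      have h1 : (b : ℝ) ^ (4 * (κ + 1)) * α M * ((2 * κ + 2) * e * l / M) ≤ (o : ℝ) ^ 2 * α M * η := by
        have h2 : (b : ℝ) ^ (4 * (κ + 1)) * ((2 * κ + 2) * e * l / M) ≤ η := by
          rw [hη, hA]
          have h3 : (b : ℝ) ^ (4 * (κ + 1)) * ((2 * κ + 2) * e * l / M) =
            (b : ℝ) ^ (4 * (κ + 1)) * (2 * κ + 2) * e * l / M := by ring
          rw [h3]
          have h4 : (e : ℝ) ≤ e + 1 := by linarith
          gcongr
        have h5 : (1 : ℝ) ≤ (o : ℝ) ^ 2 := one_le_pow₀ hoR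
        calc (b : ℝ) ^ (4 * (κ + 1)) * α M * ((2 * κ + 2) * e * l / M) =
              ((b : ℝ) ^ (4 * (κ + 1)) * ((2 * κ + 2) * e * l / M)) * α M := by ring
          _ ≤ η * α M := mul_le_mul_of_nonneg_right h2 (haR M).le
          _ = 1 * (α M * η) := by ring
          _ ≤ (o : ℝ) ^ 2 * (α M * η) := mul_le_mul_of_nonneg_right h5
              (mul_nonneg (haR M).le hη0)
          _ = _ := by ring
      rw [hβd]
      have h6 : (b : ℝ) ^ (4 * (κ + 1)) * α M * (1 - (2 * κ + 2) * e * l / M) =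
        (b : ℝ) ^ (4 * (κ + 1)) * α M - (b : ℝ) ^ (4 * (κ + 1)) * α M * ((2 * κ + 2) * e * l / M) := by
        ring
      rw [h6] at hr
      linarith
    have hoo : (0 : ℝ) < (o : ℝ) ^ 2 * α M := mul_pos (by positivity) (haR M)
    have hlow0 : 0 < (o : ℝ) ^ 2 * α M * (1 - η) := mul_pos hoo (by linarith)
    have hβ0 : 0 < β := lt_of_lt_of_le hlow0 hβlow
    have hmain := hβ M n β hβd hβ0.le
    have hEn := hE n
    -- combine
    have h1 : ((o : ℝ) ^ 2 * α M * (1 - η)) ^ (n + 1) ≤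
        (α M : ℝ) ^ n * z M * (C * (o : ℝ) ^ (2 * (n + 1)) / √((n : ℝ) + 1)) := by
      refine (pow_le_pow_left₀ hlow0.le hβlow (n + 1)).trans (hmain.trans ?_)
      exact mul_le_mul_of_nonneg_left hEn (mul_nonneg (pow_nonneg (haR M).le _) (Nat.cast_nonneg _))
    have h2 : ((o : ℝ) ^ 2 * α M * (1 - η)) ^ (n + 1) =
        (α M : ℝ) ^ n * (o : ℝ) ^ (2 * (n + 1)) * (α M * (1 - η) ^ (n + 1)) := by
      rw [mul_pow, mul_pow, ← pow_mul, pow_succ (α M : ℝ)]
      ring
    have hs : 0 < √((n : ℝ) + 1) := by positivity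
    have h3 : (α M : ℝ) * (1 - η) ^ (n + 1) ≤ z M * C / √((n : ℝ) + 1) := by
      rw [h2] at h1
      have h4 : (α M : ℝ) ^ n * z M * (C * (o : ℝ) ^ (2 * (n + 1)) / √((n : ℝ) + 1)) =
        (α M : ℝ) ^ n * (o : ℝ) ^ (2 * (n + 1)) * (z M * C / √((n : ℝ) + 1)) := by ring
      rw [h4] at h1
      exact le_of_mul_le_mul_left h1 (mul_pos (pow_pos (haR M) _) (by positivity))
    have h4 : (1 : ℝ) / 2 ≤ (1 - η) ^ (n + 1) := by
      have h5 := one_add_mul_le_pow (a := -η) (by linarith) (n + 1)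
      push_cast at h5
      have h6 : (1 + -η) ^ (n + 1) = (1 - η) ^ (n + 1) := by ring
      rw [h6] at h5
      linarith
    have h5 : (α M : ℝ) * (1 / 2) ≤ z M * C / √((n : ℝ) + 1) :=
      (mul_le_mul_of_nonneg_left h4 (haR M).le).trans h3
    have h6 : (α M : ℝ) * √((n : ℝ) + 1) / (2 * C) ≤ z M := by
      rw [div_le_iff₀ (by positivity)]
      rw [le_div_iff₀ hs] at h5
      linarith
    have h7 : √(((M : ℝ) + 1) / l) / √(8 * A) ≤ √((n : ℝ) + 1) := by
      rw [← Real.sqrt_div (by positivity)]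
      apply Real.sqrt_le_sqrt
      refine le_trans ?_ hnx2
      rw [hx, div_div, div_div, div_le_div_iff₀ (by positivity) (by positivity)]
      have h8 : 0 < A * l := by positivity
      nlinarith
    calc min c₁ c₂ * √(((M : ℝ) + 1) / l) * α M
        = min c₁ c₂ * (√(((M : ℝ) + 1) / l) * α M) := by ring
      _ ≤ c₁ * (√(((M : ℝ) + 1) / l) * α M) := mul_le_mul_of_nonneg_right (min_le_left _ _) hf0
      _ = (α M : ℝ) * (√(((M : ℝ) + 1) / l) / √(8 * A)) / (2 * C) := by
          rw [hc₁]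
          field_simp
      _ ≤ (α M : ℝ) * √((n : ℝ) + 1) / (2 * C) := by
          have := haR M
          gcongr
      _ ≤ z M := h6

end Pool.Agent.L7h97.RL
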