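import Pool.Agent.L7h89.RL.Spl
import Pool.Agent.L7h85.RL.G1

/-!
# The grading by the eigenvalues of the Frobenius endomorphism

Task S_GRD of the project RL of helper85.
-/

set_option autoImplicit false
set_option linter.unusedVariables false
set_option linter.unusedSectionVars false

open CategoryTheory AlgebraicGeometry CategoryTheory.Limits

universe u v

namespace Pool.Agent.L7h97.RL

open Pool.Agent.Y163 Module

section lin

variable {K : Type*} [Field K] {V : Type*} [AddCommGroup V] [Module K V]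

/-- nilpotent parts: powers -/
lemma nil_pow {F e : Module.End K V} {a : K} (hc : Commute F e)
    (h : IsNilpotent ((F - a • 1) * e)) (r : ℕ) :
    IsNilpotent ((F ^ r - (a ^ r) • 1) * e) := by
  have hc1 : Commute F (a • (1 : Module.End K V)) := (Commute.one_right F).smul_right a
  have h1 := hc1.geom_sum₂_mul r
  have h2 : (a • (1 : Module.End K V)) ^ r = a ^ r • (1 : Module.End K V) := by
    rw [_root_.smul_pow, one_pow]
  rw [h2] at h1
  set G := ∑ i ∈ Finset.range r, F ^ i * (a • (1 : Module.End K V)) ^ (r - 1 - i) with hG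
  have hGe : Commute G e := by
    apply Commute.sum_left
    intro i _
    exact (hc.pow_left _).mul_left (((Commute.one_left e).smul_left a).pow_left _)
  have hGF : Commute G (F - a • 1) := by
    apply Commute.sum_left
    intro i _
    apply Commute.sub_right
    · exact ((Commute.refl F).pow_left _).mul_left (hc1.symm.pow_left _)
    · exact (hc1.pow_left _).mul_left ((Commute.refl _).pow_left _)
  rw [← h1, mul_assoc]
  exact (hGF.mul_right hGe).isNilpotent_mul_left h

end lin

open Pool.Agent.H914 Pool.Agent.H447 Pool.Agent.W534 VarClass Obj WeilCohomology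
open Pool.Agent.L7h85.RL Pool.Agent.L7h89.RL

variable {k : Type u} [Field k] {𝒱 : VarClass k} {ops : CycleOps 𝒱}
  {W : WeilCohomology.{u, v} ops} {X Y Z : 𝒱.Obj} {p : ℕ} (Φ : FrobSystem W p)

/-- the Frobenius endomorphism of a product -/
lemma frob_prod (Y Z : 𝒱.Obj) : ∃ a b c : ℕ, 0 < a ∧ 0 < b ∧ 0 < c ∧
    Φ.e (Y.prod Z) * a = Φ.e Y * b ∧ Φ.e (Y.prod Z) * a = Φ.e Z * c ∧
    ∀ t : ℕ, frob Φ (Y.prod Z) (a * t) = extOp W (frob Φ Y (b * t)) (frob Φ Z (c * t)) := by
  obtain ⟨a, b, ha, hb, hab, h⟩ := frob_comm Φ (fst Y Z)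
  obtain ⟨a', b', ha', hb', hab', h'⟩ := frob_comm Φ (snd Y Z)
  refine ⟨a * a', b * a', b' * a, Nat.mul_pos ha ha', Nat.mul_pos hb ha', Nat.mul_pos hb' ha,
    ?_, ?_, fun t => ?_⟩
  · calc Φ.e (Y.prod Z) * (a * a') = (a * Φ.e (Y.prod Z)) * a' := by ring
      _ = Φ.e Y * (b * a') := by rw [hab]; ring
  · calc Φ.e (Y.prod Z) * (a * a') = (a' * Φ.e (Y.prod Z)) * a := by ring
      _ = Φ.e Z * (b' * a) := by rw [hab']; ring
  · apply ext_kunneth_lin
    intro x y
    rw [extOp_tmul, frob_apply, frob_apply, frob_apply, map_mul]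
    have e1 := h (a' * t) x
    have e2 := h' (a * t) y
    rw [show a * a' * t = a * (a' * t) by ring, e1,
      show a * (a' * t) = a' * (a * t) by ring, e2,
      show b * a' * t = b * (a' * t) by ring, show b' * a * t = b' * (a * t) by ring]

/-- The Frobenius endomorphism has the only generalised eigenvalue `ν` on the object `A`, relative
to the field of definition of `X`. -/
def Wt (X : 𝒱.Obj) (A : GOb W) (ν : W.Kˣ) : Prop :=
  ∃ s t, 0 < s ∧ 0 < t ∧ Φ.e A.Z * s = Φ.e X * t ∧ Commute (frob Φ A.Z s) A.e ∧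
    IsNilpotent ((frob Φ A.Z s - ((ν : W.K) ^ t) • 1) * A.e)

lemma Wt.mul {A B : GOb W} {μ ν : W.Kˣ} (hA : Wt Φ X A μ) (hB : Wt Φ X B ν) :
    Wt Φ X (gten A B) (μ * ν) := by
  obtain ⟨s, t, hs, ht, hst, hc, hn⟩ := hA
  obtain ⟨s', t', hs', ht', hst', hc', hn'⟩ := hB
  obtain ⟨a, b, c, ha, hb, hcc, hab, hac, hF⟩ := frob_prod Φ A.Z B.Z
  have hX := Φ.e_pos X
  -- the level
  have hk1 : t * (b * s') = t' * (c * s) := by
    have h1 : Φ.e X * (t * (b * s')) = Φ.e X * (t' * (c * s)) := by
      calc Φ.e X * (t * (b * s')) = (Φ.e X * t) * (b * s') := by ring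
        _ = (Φ.e A.Z * b) * (s * s') := by rw [← hst]; ring
        _ = (Φ.e B.Z * c) * (s * s') := by rw [← hab, hac]
        _ = (Φ.e B.Z * s') * (c * s) := by ring
        _ = Φ.e X * (t' * (c * s)) := by rw [hst']; ring
    exact Nat.eq_of_mul_eq_mul_left hX h1
  refine ⟨a * (s * s'), t * (b * s'), Nat.mul_pos ha (Nat.mul_pos hs hs'),
    Nat.mul_pos ht (Nat.mul_pos hb hs'), ?_, ?_, ?_⟩
  · calc Φ.e (A.Z.prod B.Z) * (a * (s * s')) = (Φ.e (A.Z.prod B.Z) * a) * (s * s') := by ring
      _ = (Φ.e A.Z * s) * (b * s') := by rw [hab]; ring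
      _ = Φ.e X * (t * (b * s')) := by rw [hst]; ring
  all_goals
    have e1 : frob Φ (A.Z.prod B.Z) (a * (s * s')) =
        extOp W (frob Φ A.Z s ^ (b * s')) (frob Φ B.Z s' ^ (c * s)) := by
      rw [hF, ← frob_mul_eq, ← frob_mul_eq]
      congr 2 <;> ring
  · change Commute (frob Φ (A.Z.prod B.Z) (a * (s * s'))) (extOp W A.e B.e)
    rw [e1, commute_iff_eq, extOp_mul, extOp_mul, (hc.pow_left _).eq, (hc'.pow_left _).eq]
  · change IsNilpotent ((frob Φ (A.Z.prod B.Z) (a * (s * s')) -
      (((μ * ν : W.Kˣ) : W.K) ^ (t * (b * s'))) • (1 : Module.End W.K (W.H (A.Z.prod B.Z)))) *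
        extOp W A.e B.e)
    have n1 := nil_pow hc hn (b * s')
    have n2 := nil_pow hc' hn' (c * s)
    rw [← pow_mul] at n1 n2
    rw [← hk1] at n2
    set τ := t * (b * s') with hτ
    set G := frob Φ A.Z s ^ (b * s') with hG
    set G' := frob Φ B.Z s' ^ (c * s) with hG'
    have hGc : Commute G A.e := hc.pow_left _
    have hGc' : Commute G' B.e := hc'.pow_left _
    have hiA := A.idem
    have hiB := B.idem
    rw [e1]
    have e2 : (extOp W G G' - (((μ * ν : W.Kˣ) : W.K) ^ τ) • 1) * extOp W A.e B.e =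
        extOp W ((G - ((μ : W.K) ^ τ) • 1) * A.e) (G' * B.e) +
        extOp W A.e (((μ : W.K) ^ τ) • ((G' - ((ν : W.K) ^ τ) • 1) * B.e)) := by
      have e3 : extOp W ((G - ((μ : W.K) ^ τ) • 1) * A.e) (G' * B.e) =
          extOp W (G * A.e) (G' * B.e) - ((μ : W.K) ^ τ) • extOp W A.e (G' * B.e) := by
        rw [sub_mul, smul_mul_assoc, one_mul, eq_sub_iff_add_eq, ← extOp_smul_left,
          ← extOp_add_left, sub_add_cancel]
      have e4 : extOp W A.e (((μ : W.K) ^ τ) • ((G' - ((ν : W.K) ^ τ) • 1) * B.e)) =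
          ((μ : W.K) ^ τ) • extOp W A.e (G' * B.e) -
            (((μ * ν : W.Kˣ) : W.K) ^ τ) • extOp W A.e B.e := by
        have e5 : extOp W A.e (G' * B.e - ((ν : W.K) ^ τ) • B.e) =
            extOp W A.e (G' * B.e) - ((ν : W.K) ^ τ) • extOp W A.e B.e := by
          rw [eq_sub_iff_add_eq, ← extOp_smul_right, ← extOp_add_right, sub_add_cancel]
        rw [extOp_smul_right, sub_mul, smul_mul_assoc, one_mul, Units.val_mul, mul_pow,
          ← smul_smul, e5, smul_sub]
      rw [e3, e4, sub_mul, extOp_mul, smul_mul_assoc, one_mul]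
      abel
    rw [e2]
    apply Commute.isNilpotent_add
    · rw [commute_iff_eq, extOp_mul, extOp_mul]
      congr 1
      · rw [mul_assoc, hiA, ← mul_assoc]
        have : Commute A.e (G - ((μ : W.K) ^ τ) • 1) :=
          hGc.symm.sub_right ((Commute.one_right _).smul_right _)
        rw [this.eq, mul_assoc, hiA]
      · have c1 : Commute (G' * B.e) (((μ : W.K) ^ τ) • ((G' - ((ν : W.K) ^ τ) • 1) * B.e)) := by
          apply Commute.smul_right
          apply Commute.mul_right
          · apply Commute.sub_right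
            · exact (Commute.refl _).mul_left hGc'.symm
            · exact (Commute.one_right _).smul_right _
          · exact hGc'.mul_left (Commute.refl _)
        exact c1.eq
    · obtain ⟨N, hN⟩ := n1
      refine ⟨N, ?_⟩
      have : ∀ n : ℕ, (extOp W ((G - ((μ : W.K) ^ τ) • 1) * A.e) (G' * B.e)) ^ n =
          extOp W (((G - ((μ : W.K) ^ τ) • 1) * A.e) ^ n) ((G' * B.e) ^ n) := by
        intro n
        induction n with
        | zero => rw [pow_zero, pow_zero, pow_zero, extOp_one]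
        | succ n ih => rw [pow_succ, ih, extOp_mul, ← pow_succ, ← pow_succ]
      rw [this, hN, extOp_zero_left]
    · obtain ⟨N, hN⟩ := n2.smul ((μ : W.K) ^ τ)
      refine ⟨N, ?_⟩
      have : ∀ n : ℕ, (extOp W A.e (((μ : W.K) ^ τ) • ((G' - ((ν : W.K) ^ τ) • 1) * B.e))) ^ n =
          extOp W (A.e ^ n) ((((μ : W.K) ^ τ) • ((G' - ((ν : W.K) ^ τ) • 1) * B.e)) ^ n) := by
        intro n
        induction n with
        | zero => rw [pow_zero, pow_zero, pow_zero, extOp_one]
        | succ n ih => rw [pow_succ, ih, extOp_mul, ← pow_succ, ← pow_succ]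
      rw [this, hN, extOp_zero_right]

/-- the general vanishing lemma -/
lemma eq_zero_of_two {K : Type*} [Field K] {V : Type*} [AddCommGroup V] [Module K V]
    {F e : Module.End K V} {a b : K} (hc : Commute F e) (hi : e * e = e)
    (h : IsNilpotent ((F - a • 1) * e)) (hab : a ≠ b) {x : V} {n : ℕ}
    (hx : ((F - b • 1) ^ n) x = 0) : e x = 0 := by
  obtain ⟨N, hN⟩ := h
  have hc1 : Commute (F - a • 1) e := hc.sub_left ((Commute.one_left _).smul_left _)
  have hc2 : Commute (F - b • 1) e := hc.sub_left ((Commute.one_left _).smul_left _)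
  have h1 : ((F - a • 1) ^ (N + 1)) (e x) = 0 := by
    have e1 : (F - a • 1) ^ (N + 1) * e = 0 := by
      have e2 : ((F - a • 1) * e) ^ (N + 1) = (F - a • 1) ^ (N + 1) * e := by
        rw [hc1.mul_pow]
        congr 1
        exact IsIdempotentElem.pow_succ_eq N hi
      rw [← e2, pow_succ, hN, zero_mul]
    rw [← Module.End.mul_apply, e1, LinearMap.zero_apply]
  have h2 : ((F - b • 1) ^ n) (e x) = 0 := by
    rw [← Module.End.mul_apply, (hc2.pow_left n).eq, Module.End.mul_apply, hx, map_zero]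
  have h3 := (Module.End.disjoint_genEigenspace F hab ((N + 1 : ℕ) : ℕ∞) ((n : ℕ) : ℕ∞))
  rw [Submodule.disjoint_def] at h3
  apply h3
  · rw [Module.End.mem_genEigenspace_nat, LinearMap.mem_ker]
    exact h1
  · rw [Module.End.mem_genEigenspace_nat, LinearMap.mem_ker]
    exact h2


lemma nil_kill {K : Type*} [Field K] {V : Type*} [AddCommGroup V] [Module K V]
    {F e : Module.End K V} {a : K} (hc : Commute F e) (hi : e * e = e)
    (h : IsNilpotent ((F - a • 1) * e)) : ∃ n : ℕ, (F - a • 1) ^ n * e = 0 := by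
  obtain ⟨N, hN⟩ := h
  have hc1 : Commute (F - a • 1) e := hc.sub_left ((Commute.one_left _).smul_left _)
  refine ⟨N + 1, ?_⟩
  have e2 : ((F - a • 1) * e) ^ (N + 1) = (F - a • 1) ^ (N + 1) * e := by
    rw [hc1.mul_pow]
    congr 1
    exact IsIdempotentElem.pow_succ_eq N hi
  rw [← e2, pow_succ, hN, zero_mul]

/-- an object of torsion weight consists of generalised Tate classes -/
lemma Wt.GT {σ : W.K →+* ℂ} (hp : 1 < p) (hRH : ∀ Z : 𝒱.Obj, RiemannHyp Φ σ Z) {A : GOb W}
    {ν : W.Kˣ} (h : Wt Φ X A ν) {q : ℕ} (hq : A.Z.dim = 2 * q) {N : ℕ} (hN : 0 < N)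
    (hν : (ν : W.K) ^ N = (p : W.K) ^ (Φ.e X * q * N)) : GT Φ A := by
  obtain ⟨s, t, hs, ht, hst, hc, hn⟩ := h
  refine ⟨q, hq, ?_⟩
  have n1 := nil_pow hc hn N
  have hcard : ((ν : W.K) ^ t) ^ N = (card Φ A.Z (s * N) : W.K) ^ q := by
    rw [card_pow, ← pow_mul, mul_comm t N, pow_mul, hν, ← pow_mul]
    congr 1
    calc Φ.e X * q * N * t = (Φ.e X * t) * N * q := by ring
      _ = Φ.e A.Z * (s * N) * q := by rw [← hst]; ring
  rw [hcard, ← frob_mul_eq] at n1
  have hc2 : Commute (frob Φ A.Z (s * N)) A.e := by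
    rw [frob_mul_eq]
    exact hc.pow_left _
  obtain ⟨n, hn2⟩ := nil_kill hc2 A.idem n1
  rintro _ ⟨y, rfl⟩
  have h3 : ((frob Φ A.Z (s * N) - ((card Φ A.Z (s * N) : W.K) ^ q) •
      (1 : Module.End W.K (W.H A.Z))) ^ n) (A.e y) = 0 := by
    rw [← Module.End.mul_apply, hn2, LinearMap.zero_apply]
  refine (mem_genU Φ).2 ⟨s * N, Nat.mul_pos hs hN, (mem_genTate Φ).2 ⟨⟨n, h3⟩, ?_⟩⟩
  refine gr_of_eig Φ hp (hRH A.Z) (Nat.mul_pos hs hN) (μ := (card Φ A.Z (s * N) : W.K) ^ q) ?_ h3
  rw [map_pow, map_natCast, norm_pow, Complex.norm_natCast, ← pow_mul, mul_comm q 2]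

/-- an object of another weight kills the generalised Tate classes -/
lemma Wt.kill {A : GOb W} {ν : W.Kˣ} (h : Wt Φ X A ν) {q : ℕ}
    (hν : ∀ N : ℕ, 0 < N → (ν : W.K) ^ N ≠ (p : W.K) ^ (Φ.e X * q * N)) :
    ∀ x ∈ genU Φ A.Z q, A.e x = 0 := by
  intro x hx
  obtain ⟨s, t, hs, ht, hst, hc, hn⟩ := h
  obtain ⟨s', hs', hx⟩ := (mem_genU Φ).1 hx
  have hx2 := genTate_mono' Φ s' s q hx
  obtain ⟨⟨n, hn2⟩, -⟩ := (mem_genTate Φ).1 hx2
  have n1 := nil_pow hc hn s'
  have hc2 : Commute (frob Φ A.Z (s * s')) A.e := by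
    rw [frob_mul_eq]
    exact hc.pow_left _
  rw [← frob_mul_eq] at n1
  refine eq_zero_of_two hc2 A.idem n1 ?_ hn2
  rw [card_pow, ← pow_mul]
  have h1 := hν (t * s') (Nat.mul_pos ht hs')
  have h2 : Φ.e X * q * (t * s') = Φ.e A.Z * (s * s') * q := by
    calc Φ.e X * q * (t * s') = (Φ.e X * t) * s' * q := by ring
      _ = Φ.e A.Z * (s * s') * q := by rw [← hst]; ring
  rwa [h2] at h1

/-- spectral decomposition -/
lemma exists_spectral {K : Type*} [Field K] [IsAlgClosed K] {V : Type*} [AddCommGroup V]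
    [Module K V] [Module.Finite K V] (F : Module.End K V) :
    ∃ (n : ℕ) (l : Fin n → K) (P : Fin n → Polynomial K), (∀ i, F.HasEigenvalue (l i)) ∧
      (∀ i, Polynomial.aeval F (P i) * Polynomial.aeval F (P i) = Polynomial.aeval F (P i)) ∧
      (∀ i j, i ≠ j → Polynomial.aeval F (P i) * Polynomial.aeval F (P j) = 0) ∧
      ∑ i, Polynomial.aeval F (P i) = 1 ∧
      ∀ i, IsNilpotent ((F - l i • 1) * Polynomial.aeval F (P i)) := by
  classical
  set E : Finset K := F.charpoly.roots.toFinset with hE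
  have hmemE : ∀ μ, μ ∈ E ↔ F.HasEigenvalue μ := by
    intro μ
    rw [hE, Multiset.mem_toFinset, Polynomial.mem_roots F.charpoly_monic.ne_zero,
      Module.End.hasEigenvalue_iff_isRoot_charpoly]
  set l : Fin E.card → K := fun i => (E.equivFin.symm i : K) with hl
  have hinj : Function.Injective l := fun i j h => E.equivFin.symm.injective (Subtype.ext h)
  choose P M h1 h2 h3 h4 using fun i => exists_spec F (l i)
  have hcP : ∀ (A B : Polynomial K), Commute (Polynomial.aeval F A) (Polynomial.aeval F B) := by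
    intro A B
    rw [commute_iff_eq, ← map_mul, ← map_mul, mul_comm]
  have hFl : ∀ i, F - l i • 1 = Polynomial.aeval F (Polynomial.X - Polynomial.C (l i)) := by
    intro i
    rw [map_sub, Polynomial.aeval_X, Polynomial.aeval_C, Algebra.algebraMap_eq_smul_one]
  refine ⟨E.card, l, P, fun i => (hmemE _).1 (E.equivFin.symm i).2, h1, ?_, ?_, ?_⟩
  · intro i j hij
    apply LinearMap.ext
    intro x
    have e1 : (Polynomial.aeval F (P i) * Polynomial.aeval F (P j)) x ∈
        F.maxGenEigenspace (l i) := by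
      rw [← h2]
      exact ⟨_, rfl⟩
    have e2 : (Polynomial.aeval F (P i) * Polynomial.aeval F (P j)) x ∈
        F.maxGenEigenspace (l j) := by
      rw [← h2, (hcP _ _).eq]
      exact ⟨_, rfl⟩
    have hd := Module.End.disjoint_genEigenspace F (fun h => hij (hinj h) : l i ≠ l j) ⊤ ⊤
    rw [Submodule.disjoint_def] at hd
    exact hd _ e1 e2
  · rw [← sub_eq_zero]
    apply LinearMap.ext
    intro x
    have hx : x ∈ ⨆ μ : K, F.maxGenEigenspace μ := by
      rw [Module.End.iSup_maxGenEigenspace_eq_top]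
      trivial
    rw [LinearMap.zero_apply]
    induction hx using Submodule.iSup_induction' with
    | zero => rw [map_zero]
    | add x y _ _ hx hy => rw [map_add, hx, hy, add_zero]
    | mem μ x hx =>
      by_cases hμ : μ ∈ E
      · set i := E.equivFin ⟨μ, hμ⟩ with hi
        have hli : l i = μ := by rw [hl, hi]; simp
        rw [← hli, ← h2] at hx
        obtain ⟨y, rfl⟩ := hx
        rw [LinearMap.sub_apply, Module.End.one_apply, LinearMap.sum_apply,
          Finset.sum_eq_single i, ← Module.End.mul_apply, h1, sub_self]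
        · intro j _ hji
          rw [← Module.End.mul_apply]
          have e1 : (Polynomial.aeval F (P j) * Polynomial.aeval F (P i)) y ∈
              F.maxGenEigenspace (l j) := by
            rw [← h2]
            exact ⟨_, rfl⟩
          have e2 : (Polynomial.aeval F (P j) * Polynomial.aeval F (P i)) y ∈
              F.maxGenEigenspace (l i) := by
            rw [← h2, (hcP _ _).eq]
            exact ⟨_, rfl⟩
          have hd := Module.End.disjoint_genEigenspace F (fun h => hji (hinj h) : l j ≠ l i) ⊤ ⊤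
          rw [Submodule.disjoint_def] at hd
          exact hd _ e1 e2
        · intro h
          exact absurd (Finset.mem_univ i) h
      · have h5 : F.maxGenEigenspace μ = ⊥ := by
          by_contra h6
          apply hμ
          rw [hmemE]
          have h7 : F.HasUnifEigenvalue μ ⊤ := h6
          exact h7.lt (by norm_num)
        rw [h5, Submodule.mem_bot] at hx
        rw [hx, map_zero]
  · intro i
    refine ⟨M i + 1, ?_⟩
    have hc1 : Commute (F - l i • 1) (Polynomial.aeval F (P i)) := by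
      rw [hFl]
      exact hcP _ _
    rw [hc1.mul_pow, IsIdempotentElem.pow_succ_eq (M i) (h1 i), pow_succ', mul_assoc, h4, mul_zero]

/-- the number of homomorphisms is additive in orthogonal idempotents -/
lemma gh_sum (hMU : S_MU W) (hpar : AllPar W) {Z : 𝒱.Obj} {ι : Type*} (S : Finset ι)
    (e : ι → Module.End W.K (W.H Z)) (hm : ∀ i, e i ∈ KOp W Z Z 0) (hi : ∀ i, e i * e i = e i)
    (ho : ∀ i j, i ≠ j → e i * e j = 0) (C : GOb W) : ∀ f : Module.End W.K (W.H Z),
    f = ∑ i ∈ S, e i → ∀ (m : f ∈ KOp W Z Z 0) (h : f * f = f),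
      gh ⟨Z, f, m, h⟩ C = ∑ i ∈ S, gh ⟨Z, e i, hm i, hi i⟩ C := by
  classical
  induction S using Finset.induction_on with
  | empty =>
    intro f hf m h
    rw [Finset.sum_empty] at hf ⊢
    subst hf
    have h1 := gh_add hMU hpar m m h h (mul_zero _) (mul_zero _) (⟨Z, 0, m, h⟩ : GOb W) rfl C
      (by simp only [add_zero])
    omega
  | insert a S ha ih =>
    intro f hf m h
    rw [Finset.sum_insert ha] at hf ⊢
    have m2 : ∑ i ∈ S, e i ∈ KOp W Z Z 0 := Submodule.sum_mem _ fun i _ => hm i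
    have h12 : e a * ∑ i ∈ S, e i = 0 := by
      rw [Finset.mul_sum]
      exact Finset.sum_eq_zero fun i hiS => ho a i (fun h => ha (h ▸ hiS))
    have h21 : (∑ i ∈ S, e i) * e a = 0 := by
      rw [Finset.sum_mul]
      exact Finset.sum_eq_zero fun i hiS => ho i a (fun h => ha (h ▸ hiS))
    have h22 : (∑ i ∈ S, e i) * (∑ i ∈ S, e i) = ∑ i ∈ S, e i := by
      rw [Finset.sum_mul_sum]
      apply Finset.sum_congr rfl
      intro i hiS
      rw [Finset.sum_eq_single i, hi]
      · intro j _ hji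
        exact ho i j hji.symm
      · intro h
        exact absurd hiS h
    rw [← ih _ rfl m2 h22]
    exact gh_add hMU hpar (hm a) m2 (hi a) h22 h12 h21 ⟨Z, f, m, h⟩ rfl C hf

theorem s_GRD (σ : W.K →+* ℂ) : S_GRD Φ σ := by
  intro hp hK hRH 𝒮 hG X
  have hMU : S_MU W := s_mu
  have hpar := allPar Φ hp hK σ hRH
  set F := frob Φ X 1 with hF
  have hFmem : F ∈ KAlg W X := map_mem_KOp _
  obtain ⟨n, l, P, hl, hid, hor, hsum, hnil⟩ := exists_spectral F
  have hl0 : ∀ i, l i ≠ 0 := by
    intro i h0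
    obtain ⟨x, hx⟩ := (hl i).exists_hasEigenvector
    have h1 := hx.apply_eq_smul
    rw [h0, zero_smul] at h1
    exact hx.2 (map_iter_injective Φ 1 (h1.trans (map_zero _).symm))
  have hmem : ∀ i, Polynomial.aeval F (P i) ∈ KOp W X X 0 := fun i => aeval_mem hFmem _
  set A : Fin n → GOb W := fun i => ⟨X, Polynomial.aeval F (P i), hmem i, hid i⟩ with hA
  have hWA : ∀ i, Wt Φ X (A i) (Units.mk0 (l i) (hl0 i)) := by
    intro i
    refine ⟨1, 1, one_pos, one_pos, rfl, ?_, ?_⟩
    · change Commute F (Polynomial.aeval F (P i))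
      have : Commute (Polynomial.aeval F (Polynomial.X : Polynomial W.K))
          (Polynomial.aeval F (P i)) := by
        rw [commute_iff_eq, ← map_mul, ← map_mul, mul_comm]
      rwa [Polynomial.aeval_X] at this
    · rw [Units.val_mk0, pow_one]
      exact hnil i
  set ν : Fin n × Fin n → W.Kˣ := fun a => Units.mk0 (l a.1) (hl0 a.1) *
    Units.mk0 (l a.2) (hl0 a.2) with hν
  set U : Fin n × Fin n → GOb W := fun a => gten (A a.1) (A a.2) with hU
  have hp0 : ((p : W.K)) ≠ 0 := cast_p_ne Φ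
  set Q : W.Kˣ := Units.mk0 ((p : W.K) ^ (Φ.e X * X.dim)) (pow_ne_zero _ hp0) with hQ
  set g : Fin n × Fin n → (W.Kˣ ⧸ CommGroup.torsion W.Kˣ) :=
    fun a => QuotientGroup.mk (ν a * Q⁻¹) with hg
  -- the words
  have hword : ∀ (L : List (Fin n × Fin n)) (a : Fin n × Fin n),
      Wt Φ X (𝒮.lt U a L) ((a :: L).map ν).prod ∧
        (𝒮.lt U a L).Z.dim = 2 * ((L.length + 1) * X.dim) := by
    intro L
    induction L with
    | nil =>
      intro a
      refine ⟨?_, ?_⟩
      · have h1 := (hWA a.1).mul Φ (hWA a.2)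
        simpa [Sys.lt] using h1
      · change (X.prod X).dim = _
        rw [dim_prod]
        simp
        ring
    | cons b L ih =>
      intro a
      obtain ⟨h1, h2⟩ := ih b
      have e1 : 𝒮.lt U a (b :: L) = gten (U a) (𝒮.lt U b L) := hG.ten_eq _ _
      rw [e1]
      refine ⟨?_, ?_⟩
      · rw [List.map_cons, List.prod_cons]
        exact Wt.mul Φ ((hWA a.1).mul Φ (hWA a.2)) h1
      · change ((X.prod X).prod (𝒮.lt U b L).Z).dim = _
        rw [dim_prod, dim_prod, h2, List.length_cons]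
        ring
  have hprod : ∀ (L : List (Fin n × Fin n)), (L.map g).prod =
      QuotientGroup.mk ((L.map ν).prod * (Q⁻¹) ^ L.length) := by
    intro L
    induction L with
    | nil => simp
    | cons a L ih =>
      rw [List.map_cons, List.prod_cons, ih, List.map_cons, List.prod_cons, List.length_cons,
        hg]
      change QuotientGroup.mk _ * QuotientGroup.mk _ = _
      rw [← QuotientGroup.mk_mul]
      congr 1
      rw [pow_succ', mul_mul_mul_comm]
  have hiff : ∀ (L : List (Fin n × Fin n)) (N : ℕ), ((L.map ν).prod * (Q⁻¹) ^ L.length) ^ N = 1 ↔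
      ((((L.map ν).prod : W.Kˣ) : W.K)) ^ N = (p : W.K) ^ (Φ.e X * (L.length * X.dim) * N) := by
    intro L N
    rw [inv_pow, ← div_eq_mul_inv, div_pow, div_eq_one, ← Units.val_inj, Units.val_pow_eq_pow_val,
      Units.val_pow_eq_pow_val, Units.val_pow_eq_pow_val, hQ, Units.val_mk0, ← pow_mul, ← pow_mul]
    rw [show Φ.e X * X.dim * (L.length * N) = Φ.e X * (L.length * X.dim) * N by ring]
  have hone : extOp W (1 : Module.End W.K (W.H X)) (adj (1 : Module.End W.K (W.H X))) =
      ∑ a : Fin n × Fin n, extOp W (Polynomial.aeval F (P a.1)) (Polynomial.aeval F (P a.2)) := by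
    rw [adj_one, Fintype.sum_prod_type]
    have e1 : extOp W (∑ i, Polynomial.aeval F (P i)) (∑ j, Polynomial.aeval F (P j)) =
        ∑ i, ∑ j, extOp W (Polynomial.aeval F (P i)) (Polynomial.aeval F (P j)) := by
      rw [extOp_sum]
      exact Finset.sum_congr rfl fun i _ => extOp_sum' _ _ _
    rw [hsum] at e1
    exact e1
  refine ⟨Fin n × Fin n, inferInstance, U, g, ?_, ?_, ?_⟩
  · intro C
    rw [hG.ten_eq, hG.dual_eq, hG.h_eq]
    simp only [hG.h_eq]
    have h1 := gh_sum hMU hpar (Z := X.prod X) Finset.univ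
      (fun a : Fin n × Fin n => extOp W (Polynomial.aeval F (P a.1)) (Polynomial.aeval F (P a.2)))
      (fun a => (U a).mem) (fun a => (U a).idem) (by
        rintro ⟨a, b⟩ ⟨a', b'⟩ hne
        simp only
        rw [extOp_mul]
        by_cases ha : a = a'
        · have hb : b ≠ b' := fun h => hne (by rw [ha, h])
          rw [hor b b' hb, extOp_zero_right]
        · rw [hor a a' ha, extOp_zero_left]) C
      (gten (gone W X) (gdual (gone W X))).e hone (gten (gone W X) (gdual (gone W X))).mem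
      (gten (gone W X) (gdual (gone W X))).idem
    exact h1
  · intro a L hL
    obtain ⟨h1, h2⟩ := hword L a
    rw [hprod, QuotientGroup.eq_one_iff, CommGroup.mem_torsion, isOfFinOrder_iff_pow_eq_one] at hL
    obtain ⟨N, hN, h3⟩ := hL
    rw [hiff] at h3
    exact h1.GT Φ hp hRH h2 hN h3
  · intro a L hL S hS hT
    obtain ⟨h1, h2⟩ := hword L a
    rw [hG.h_eq]
    have h3 : ∀ N : ℕ, 0 < N → (((((a :: L).map ν).prod : W.Kˣ) : W.K)) ^ N ≠
        (p : W.K) ^ (Φ.e X * ((L.length + 1) * X.dim) * N) := by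
      intro N hN h4
      apply hL
      rw [hprod, QuotientGroup.eq_one_iff, CommGroup.mem_torsion, isOfFinOrder_iff_pow_eq_one]
      exact ⟨N, hN, (hiff (a :: L) N).2 h4⟩
    exact gh_zero Φ hMU hpar h2 (𝒮.lt U a L).mem (𝒮.lt U a L).idem (h1.kill Φ h3) hT

end Pool.Agent.L7h97.RL
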