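import Pool.Agent.L7h85.RL.Stm4
import Pool.Agent.L7h97.RL.Num

/-!
# Project RL: the numerical end with an exponent
-/

set_option autoImplicit false

namespace Pool.Agent.L7h97.RL

open Finset Filter Pool.Agent.L7h85.RL

theorem s_NUG : S_NUG := by
  intro α z E b o κ e C γ hb ho hC hγ hz hα hlc hup hlo hE hβ
  have hbR : (0 : ℝ) < b := by exact_mod_cast hb
  have hoR : (1 : ℝ) ≤ o := by exact_mod_cast ho
  have haR : ∀ n, (0 : ℝ) < α n := fun n => by exact_mod_cast hα n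
  set A : ℝ := (b : ℝ) ^ (4 * (κ + 1)) * (2 * κ + 2) * (e + 1) with hA
  have hA0 : 0 < A := by positivity
  obtain ⟨M₀, hM₀⟩ := ev_big (2 * A)
  obtain ⟨c₂, hc₂, hsmall⟩ := small_c
    (fun M => (((M : ℝ) + 1) / Real.log (M + 2)) ^ γ * α M) (max M₀ 1)
  set c₁ : ℝ := 1 / (2 * C * (8 * A) ^ γ) with hc₁
  have hc₁0 : 0 < c₁ := by positivity
  refine ⟨min c₁ c₂, lt_min hc₁0 hc₂, fun M => ?_⟩
  have hlog : 0 < Real.log ((M : ℝ) + 2) := Real.log_pos (by
    have : (0 : ℝ) ≤ M := Nat.cast_nonneg M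
    linarith)
  have hf0 : 0 ≤ (((M : ℝ) + 1) / Real.log (M + 2)) ^ γ * α M :=
    mul_nonneg (Real.rpow_nonneg (by positivity) _) (haR M).le
  by_cases hM : M < max M₀ 1
  · have h1 := hsmall M hM
    have h2 : (1 : ℝ) ≤ z M := by exact_mod_cast hz M
    calc min c₁ c₂ * (((M : ℝ) + 1) / Real.log (M + 2)) ^ γ * α M
        = min c₁ c₂ * ((((M : ℝ) + 1) / Real.log (M + 2)) ^ γ * α M) := by ring
      _ ≤ c₂ * ((((M : ℝ) + 1) / Real.log (M + 2)) ^ γ * α M) :=
          mul_le_mul_of_nonneg_right (min_le_right _ _) hf0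
      _ ≤ 1 := h1
      _ ≤ z M := h2
  · have hM1 : 1 ≤ M := by
      have := le_max_right M₀ 1
      omega
    have hM2 : M₀ ≤ M := by
      have := le_max_left M₀ 1
      omega
    have hMR : (1 : ℝ) ≤ M := by exact_mod_cast hM1
    have hbig := hM₀ M hM2
    set l := Real.log ((M : ℝ) + 2) with hl
    set x : ℝ := M / (2 * A * l) with hx
    have hx1 : 1 ≤ x := by
      rw [hx, le_div_iff₀ (by positivity), one_mul]
      exact hbig
    obtain ⟨n, hn⟩ : ∃ n : ℕ, ⌊x⌋₊ = n + 1 := by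
      have h1 : 1 ≤ ⌊x⌋₊ := Nat.le_floor (by simpa using hx1)
      exact ⟨⌊x⌋₊ - 1, by omega⟩
    have hnx : ((n : ℝ) + 1) ≤ x := by
      have := Nat.floor_le (show 0 ≤ x by linarith)
      rw [hn] at this
      exact_mod_cast this
    have hnx2 : x / 2 ≤ (n : ℝ) + 1 := by
      have h1 := Nat.lt_floor_add_one x
      rw [hn] at h1
      push_cast at h1
      have h2 : (0 : ℝ) ≤ n := Nat.cast_nonneg n
      linarith
    set η : ℝ := A * l / M with hη
    have hη0 : 0 ≤ η := by positivity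
    have hηn : ((n : ℝ) + 1) * η ≤ 1 / 2 := by
      calc ((n : ℝ) + 1) * η ≤ x * η := mul_le_mul_of_nonneg_right hnx hη0
        _ = 1 / 2 := by
          rw [hx, hη]
          field_simp
    have hη1 : η ≤ 1 / 2 := by
      have h2 : (0 : ℝ) ≤ n := Nat.cast_nonneg n
      nlinarith
    -- the lower bound for β
    have hr := ratio (a := fun n => (α n : ℝ)) (b := (b : ℝ)) (e := e) hbR haR
      (fun n => by exact_mod_cast hlc n) (by
        have := hup 0
        norm_num at this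
        exact_mod_cast this) (fun n => by exact_mod_cast hlo n) hM1 (2 * κ + 2)
    set β : ℝ := (o : ℝ) ^ 2 * α M - ((b : ℝ) ^ (4 * (κ + 1)) * α M - α (M + (2 * κ + 2))) with hβd
    have hβlow : (o : ℝ) ^ 2 * α M * (1 - η) ≤ β := by
      have e1 : (2 * (2 * κ + 2)) = 4 * (κ + 1) := by ring
      rw [e1] at hr
      push_cast at hr
      have h1 : (b : ℝ) ^ (4 * (κ + 1)) * α M * ((2 * κ + 2) * e * l / M) ≤ (o : ℝ) ^ 2 * α M * η := by
        have h2 : (b : ℝ) ^ (4 * (κ + 1)) * ((2 * κ + 2) * e * l / M) ≤ η := by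
          rw [hη, hA]
          have h3 : (b : ℝ) ^ (4 * (κ + 1)) * ((2 * κ + 2) * e * l / M) =
            (b : ℝ) ^ (4 * (κ + 1)) * (2 * κ + 2) * e * l / M := by ring
          rw [h3]
          have h4 : (e : ℝ) ≤ e + 1 := by linarith
          gcongr
        have h5 : (1 : ℝ) ≤ (o : ℝ) ^ 2 := one_le_pow₀ hoR
        calc (b : ℝ) ^ (4 * (κ + 1)) * α M * ((2 * κ + 2) * e * l / M) =
              ((b : ℝ) ^ (4 * (κ + 1)) * ((2 * κ + 2) * e * l / M)) * α M := by ring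
          _ ≤ η * α M := mul_le_mul_of_nonneg_right h2 (haR M).le
          _ = 1 * (α M * η) := by ring
          _ ≤ (o : ℝ) ^ 2 * (α M * η) := mul_le_mul_of_nonneg_right h5
              (mul_nonneg (haR M).le hη0)
          _ = _ := by ring
      rw [hβd]
      have h6 : (b : ℝ) ^ (4 * (κ + 1)) * α M * (1 - (2 * κ + 2) * e * l / M) =
        (b : ℝ) ^ (4 * (κ + 1)) * α M - (b : ℝ) ^ (4 * (κ + 1)) * α M * ((2 * κ + 2) * e * l / M) := by
        ring
      rw [h6] at hr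
      linarith
    have hoo : (0 : ℝ) < (o : ℝ) ^ 2 * α M := mul_pos (by positivity) (haR M)
    have hlow0 : 0 < (o : ℝ) ^ 2 * α M * (1 - η) := mul_pos hoo (by linarith)
    have hβ0 : 0 < β := lt_of_lt_of_le hlow0 hβlow
    have hmain := hβ M n β hβd hβ0.le
    have hEn := hE n
    -- combine
    have h1 : ((o : ℝ) ^ 2 * α M * (1 - η)) ^ (n + 1) ≤
        (α M : ℝ) ^ n * z M * (C * (o : ℝ) ^ (2 * (n + 1)) / ((n : ℝ) + 1) ^ γ) := by
      refine (pow_le_pow_left₀ hlow0.le hβlow (n + 1)).trans (hmain.trans ?_)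
      exact mul_le_mul_of_nonneg_left hEn (mul_nonneg (pow_nonneg (haR M).le _) (Nat.cast_nonneg _))
    have h2 : ((o : ℝ) ^ 2 * α M * (1 - η)) ^ (n + 1) =
        (α M : ℝ) ^ n * (o : ℝ) ^ (2 * (n + 1)) * (α M * (1 - η) ^ (n + 1)) := by
      rw [mul_pow, mul_pow, ← pow_mul, pow_succ (α M : ℝ)]
      ring
    have hs : 0 < ((n : ℝ) + 1) ^ γ := by positivity
    have h3 : (α M : ℝ) * (1 - η) ^ (n + 1) ≤ z M * C / ((n : ℝ) + 1) ^ γ := by
      rw [h2] at h1
      have h4 : (α M : ℝ) ^ n * z M * (C * (o : ℝ) ^ (2 * (n + 1)) / ((n : ℝ) + 1) ^ γ) =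
        (α M : ℝ) ^ n * (o : ℝ) ^ (2 * (n + 1)) * (z M * C / ((n : ℝ) + 1) ^ γ) := by ring
      rw [h4] at h1
      exact le_of_mul_le_mul_left h1 (mul_pos (pow_pos (haR M) _) (by positivity))
    have h4 : (1 : ℝ) / 2 ≤ (1 - η) ^ (n + 1) := by
      have h5 := one_add_mul_le_pow (a := -η) (by linarith) (n + 1)
      push_cast at h5
      have h6 : (1 + -η) ^ (n + 1) = (1 - η) ^ (n + 1) := by ring
      rw [h6] at h5
      linarith
    have h5 : (α M : ℝ) * (1 / 2) ≤ z M * C / ((n : ℝ) + 1) ^ γ :=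
      (mul_le_mul_of_nonneg_left h4 (haR M).le).trans h3
    have h6 : (α M : ℝ) * ((n : ℝ) + 1) ^ γ / (2 * C) ≤ z M := by
      rw [div_le_iff₀ (by positivity)]
      rw [le_div_iff₀ hs] at h5
      linarith
    have h7 : (((M : ℝ) + 1) / l) ^ γ / (8 * A) ^ γ ≤ ((n : ℝ) + 1) ^ γ := by
      rw [← Real.div_rpow (by positivity) (by positivity)]
      apply Real.rpow_le_rpow (by positivity) _ hγ
      refine le_trans ?_ hnx2
      rw [hx, div_div, div_div, div_le_div_iff₀ (by positivity) (by positivity)]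
      have h8 : 0 < A * l := by positivity
      nlinarith
    calc min c₁ c₂ * (((M : ℝ) + 1) / l) ^ γ * α M
        = min c₁ c₂ * ((((M : ℝ) + 1) / l) ^ γ * α M) := by ring
      _ ≤ c₁ * ((((M : ℝ) + 1) / l) ^ γ * α M) := mul_le_mul_of_nonneg_right (min_le_left _ _) hf0
      _ = (α M : ℝ) * ((((M : ℝ) + 1) / l) ^ γ / (8 * A) ^ γ) / (2 * C) := by
          rw [hc₁]
          field_simp
      _ ≤ (α M : ℝ) * ((n : ℝ) + 1) ^ γ / (2 * C) := by
          have := haR M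
          gcongr
      _ ≤ z M := h6

end Pool.Agent.L7h97.RL
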